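import Mathlib
import Pool.Agent.H341Q.PNMain
import Pool.Agent.Helper292.ForceCH

/-!
# MP_2087e7_lc: Q1 has a negative answer

First half: there is a forcing notion all of whose conditions force, over any ground model, that
`ω₁` is preserved and that the continuum hypothesis holds.  Second half: the continuum hypothesis
implies that every nonempty perfect Polish space contains a set which is countably perfectly meager
and universally null, but not countably perfectly null.
-/

set_option autoImplicit false

open Cardinal
open Pool.Agent.Helper292.ForceCH (OmegaOnePreserved CHHolds)
open Pool.Agent.H341Q.PN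

namespace Pool.Agent.Results.MP_2087e7_lc.NotTheoremOfZFC

universe u

/-- Some forcing notion preserves `ω₁` and forces the continuum hypothesis over any ground model;
and under the continuum hypothesis every nonempty perfect Polish space contains a set which is
countably perfectly meager and universally null but not countably perfectly null. -/
theorem result :
    (∃ (P : Type) (_ : Preorder P), Nonempty P ∧
      ∀ p : P, p ∈ OmegaOnePreserved P ∧ p ∈ CHHolds P) ∧
    ((ℵ₁ : Cardinal.{0}) = 𝔠 →
      ∀ (X : Type u) [TopologicalSpace X] [PolishSpace X] [PerfectSpace X] [Nonempty X]
        [MeasurableSpace X] [BorelSpace X],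
        ∃ A : Set X, CountablyPerfectlyMeager A ∧ UniversallyNull A ∧
          ¬ CountablyPerfectlyNull A) := by
  refine ⟨?_, fun hCH => ?_⟩
  · obtain ⟨P, hP, hne, h⟩ := Pool.Agent.Helper292.ForceCH.exists_forcing
    exact ⟨P, hP, hne, fun p => ⟨(h p).1, (h p).2.2⟩⟩
  · intro X _ _ _ _ _ _
    exact exists_general hCH.symm

end Pool.Agent.Results.MP_2087e7_lc.NotTheoremOfZFC
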